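import Mathlib

/-!
# MP_72b677_al for all positively graded algebras

Let `k` be a field of characteristic `0`, `A` a finite-dimensional local `k`-algebra with a grading
`A = ⨁_{i ≥ 0} A_i`, `A_0 = k` (arbitrary weights), and `M` a finitely generated `A`-module.  Then
`l(M) ≤ l(Der_k(A,M)) + l(s(M))`, and for `M ≠ 0` equality holds iff `A ≅ k[x]/(x^n)` for some
`n ≥ 1` and `M` is free.

With the Euler derivation `E` the map `m ↦ (a ↦ E(a) m)` embeds `M/s(M)` in `Der_k(A,M)`.  If it is
onto and `dim 𝔪/𝔪² ≥ 2`, pick homogeneous `x,y` independent mod `𝔪²` and `0 ≠ s ∈ s(M)`; one gets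
`m₁,m₂` with `a m₁ = ψ(a)s`, `a m₂ = ψ'(a)s`, and `a ↦ ψ(a)m₂ - ψ'(a)m₁` is a derivation which is not
of this form.
-/

namespace Pool.Agent.Results.MP_72b677_al.Graded

open IsLocalRing Module

section euler

variable {k A : Type*} [Field k] [CommRing A] [Algebra k A]
variable (𝒜 : ℕ → Submodule k A) [GradedAlgebra 𝒜]

/-- the Euler derivation, as a linear map -/
noncomputable def eulerLin : A →ₗ[k] A :=
  (DirectSum.toModule k ℕ A (fun i => (i : k) • (𝒜 i).subtype)) ∘ₗ
    (DirectSum.decomposeLinearEquiv 𝒜).toLinearMap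

lemma eulerLin_of_mem {i : ℕ} {a : A} (ha : a ∈ 𝒜 i) : eulerLin 𝒜 a = (i : k) • a := by
  unfold eulerLin
  simp only [LinearMap.comp_apply, LinearEquiv.coe_coe, DirectSum.decomposeLinearEquiv_apply]
  rw [DirectSum.decompose_of_mem 𝒜 ha]
  erw [DirectSum.toModule_lof]
  simp

/-- division by the degree -/
noncomputable def invLin : A →ₗ[k] A :=
  (DirectSum.toModule k ℕ A (fun i => ((i : k)⁻¹) • (𝒜 i).subtype)) ∘ₗ
    (DirectSum.decomposeLinearEquiv 𝒜).toLinearMap

lemma invLin_of_mem {i : ℕ} {a : A} (ha : a ∈ 𝒜 i) : invLin 𝒜 a = ((i : k)⁻¹) • a := by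
  unfold invLin
  simp only [LinearMap.comp_apply, LinearEquiv.coe_coe, DirectSum.decomposeLinearEquiv_apply]
  rw [DirectSum.decompose_of_mem 𝒜 ha]
  erw [DirectSum.toModule_lof]
  simp

lemma eulerLin_leibniz (a b : A) :
    eulerLin 𝒜 (a * b) = a • eulerLin 𝒜 b + b • eulerLin 𝒜 a := by
  induction a using DirectSum.Decomposition.inductionOn 𝒜 with
  | zero => simp
  | add a a' ha ha' =>
    rw [add_mul, map_add, map_add, ha, ha']
    simp only [smul_eq_mul]; ring
  | homogeneous a =>
    induction b using DirectSum.Decomposition.inductionOn 𝒜 with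
    | zero => simp
    | add b b' hb hb' =>
      rw [mul_add, map_add, map_add, hb, hb']
      simp only [smul_eq_mul]; ring
    | homogeneous b =>
      rename_i i j
      rw [eulerLin_of_mem 𝒜 (SetLike.mul_mem_graded a.2 b.2), eulerLin_of_mem 𝒜 a.2,
        eulerLin_of_mem 𝒜 b.2]
      push_cast
      simp only [smul_eq_mul, mul_smul_comm, add_smul]
      rw [mul_comm (b : A) (a : A), add_comm]

/-- the Euler derivation of a graded algebra -/
noncomputable def euler : Derivation k A A := Derivation.mk' (eulerLin 𝒜) (eulerLin_leibniz 𝒜)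

lemma euler_of_mem {i : ℕ} {a : A} (ha : a ∈ 𝒜 i) : euler 𝒜 a = (i : k) • a :=
  eulerLin_of_mem 𝒜 ha

lemma euler_invLin [CharZero k] (b : A) :
    euler 𝒜 (invLin 𝒜 b) = b - ((DirectSum.decompose 𝒜 b) 0 : A) := by
  induction b using DirectSum.Decomposition.inductionOn 𝒜 with
  | zero => simp
  | add b b' hb hb' =>
    rw [map_add, map_add, hb, hb', DirectSum.decompose_add]
    simp only [DirectSum.add_apply, Submodule.coe_add]; ring
  | homogeneous b =>
    rename_i i
    rw [invLin_of_mem 𝒜 b.2, Derivation.map_smul, euler_of_mem 𝒜 b.2, DirectSum.decompose_coe]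
    rcases Nat.eq_zero_or_pos i with h | h
    · subst h
      simp
    · rw [DirectSum.of_eq_of_ne _ _ _ (by omega)]
      have : (i : k) ≠ 0 := by exact_mod_cast h.ne'
      rw [smul_smul, inv_mul_cancel₀ this]
      simp

end euler

section loc

variable {k A : Type*} [Field k] [CommRing A] [Algebra k A] [IsLocalRing A]
variable (𝒜 : ℕ → Submodule k A) [GradedAlgebra 𝒜]

lemma pos_mem {i : ℕ} (hi : 0 < i) {a : A} (ha : a ∈ 𝒜 i) : a ∈ maximalIdeal A := by
  rw [mem_maximalIdeal, mem_nonunits_iff]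
  rintro ⟨u, hu⟩
  have h1 : (((DirectSum.decompose 𝒜 (a * (↑u⁻¹ : A))) 0 : 𝒜 0) : A) = 0 :=
    DirectSum.coe_decompose_mul_of_left_mem_of_not_le 𝒜 ha (by omega)
  rw [← hu, Units.mul_inv] at h1
  rw [DirectSum.decompose_of_mem_same 𝒜 (SetLike.one_mem_graded 𝒜)] at h1
  exact one_ne_zero h1

lemma euler_mem (a : A) : euler 𝒜 a ∈ maximalIdeal A := by
  induction a using DirectSum.Decomposition.inductionOn 𝒜 with
  | zero => simp
  | add a a' ha ha' => rw [map_add]; exact Ideal.add_mem _ ha ha'
  | homogeneous a =>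
    rename_i i
    rw [euler_of_mem 𝒜 a.2]
    rcases Nat.eq_zero_or_pos i with h | h
    · subst h; simp
    · rw [Algebra.smul_def]
      exact Ideal.mul_mem_left _ _ (pos_mem 𝒜 h a.2)

lemma const_not_mem {c : k} (hc : algebraMap k A c ∈ maximalIdeal A) : c = 0 := by
  by_contra h
  rw [mem_maximalIdeal, mem_nonunits_iff] at hc
  exact hc ((IsUnit.mk0 c h).map (algebraMap k A))

variable (h0 : 𝒜 0 = 1)
include h0

lemma zero_part (b : A) : ∃ c : k, ((DirectSum.decompose 𝒜 b) 0 : A) = algebraMap k A c := by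
  have h1 : ∀ z : A, z ∈ 𝒜 0 → ∃ c : k, z = algebraMap k A c := by
    intro z hz
    rw [h0, Submodule.mem_one] at hz
    obtain ⟨c, hc⟩ := hz
    exact ⟨c, hc.symm⟩
  exact h1 _ (Subtype.mem _)

lemma decomp [CharZero k] (b : A) : ∃ (c : k) (b' : A), b' ∈ maximalIdeal A ∧ b = algebraMap k A c + b' := by
  obtain ⟨c, hc⟩ := zero_part 𝒜 h0 b
  refine ⟨c, euler 𝒜 (invLin 𝒜 b), euler_mem 𝒜 _, ?_⟩
  rw [euler_invLin, hc]; ring

lemma euler_surj [CharZero k] {b : A} (hb : b ∈ maximalIdeal A) : ∃ a, euler 𝒜 a = b := by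
  refine ⟨invLin 𝒜 b, ?_⟩
  rw [euler_invLin]
  obtain ⟨c, hc⟩ := zero_part 𝒜 h0 b
  have h1 : algebraMap k A c ∈ maximalIdeal A := by
    have h2 := euler_mem 𝒜 (invLin 𝒜 b)
    rw [euler_invLin, hc] at h2
    have h3 := Ideal.sub_mem _ hb h2
    simpa using h3
  have := const_not_mem h1
  rw [hc, this, map_zero, sub_zero]

end loc

section modules

variable {k A M : Type*} [Field k] [CommRing A] [Algebra k A] [IsLocalRing A]
  [AddCommGroup M] [Module A M] [Module k M] [IsScalarTower k A M]

/-- the socle `s(M) = {m : 𝔪 m = 0}` -/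
def socle (A M : Type*) [CommRing A] [IsLocalRing A] [AddCommGroup M] [Module A M] : Submodule A M where
  carrier := {m | ∀ a ∈ maximalIdeal A, a • m = 0}
  add_mem' := by
    intro m n hm hn a ha
    rw [smul_add, hm a ha, hn a ha, add_zero]
  zero_mem' := by intro a _; exact smul_zero a
  smul_mem' := by
    intro b m hm a ha
    rw [smul_comm, hm a ha, smul_zero]

lemma mem_socle {m : M} : m ∈ socle A M ↔ ∀ a ∈ maximalIdeal A, a • m = 0 := Iff.rfl

/-- the map `m ↦ (a ↦ E(a) m)` -/
noncomputable def T (E : Derivation k A A) : M →ₗ[A] Derivation k A M where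
  toFun m := (LinearMap.toSpanSingleton A M m).compDer E
  map_add' m n := by ext a; simp [smul_add]
  map_smul' b m := by
    ext a
    simp [smul_smul, mul_comm]

lemma T_apply (E : Derivation k A A) (m : M) (a : A) : T E m a = E a • m := by
  simp [T]

variable {E : Derivation k A A} (hE1 : ∀ a, E a ∈ maximalIdeal A)
  (hE2 : ∀ b ∈ maximalIdeal A, ∃ a, E a = b)

include hE1 hE2 in
lemma ker_T : LinearMap.ker (T E : M →ₗ[A] Derivation k A M) = socle A M := by
  ext m
  rw [LinearMap.mem_ker, mem_socle]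
  constructor
  · intro h b hb
    obtain ⟨a, rfl⟩ := hE2 b hb
    rw [← T_apply, h]; rfl
  · intro h
    ext a
    rw [T_apply, h _ (hE1 a)]; rfl

include hE1 hE2 in
lemma length_eq : Module.length A M =
    Module.length A (socle A M) + Module.length A (LinearMap.range (T E : M →ₗ[A] Derivation k A M)) := by
  have h := Module.length_eq_add_of_exact (LinearMap.ker (T E : M →ₗ[A] Derivation k A M)).subtype
    (T E : M →ₗ[A] Derivation k A M).rangeRestrict (Submodule.subtype_injective _)
    (LinearMap.surjective_rangeRestrict _) (by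
      intro m
      constructor
      · intro hm
        have : m ∈ LinearMap.ker (T E : M →ₗ[A] Derivation k A M) := by
          rw [LinearMap.mem_ker]
          have := congrArg Subtype.val hm
          simpa using this
        exact ⟨⟨m, this⟩, rfl⟩
      · rintro ⟨⟨n, hn⟩, rfl⟩
        ext1
        simpa using hn)
  rw [h, ker_T hE1 hE2]

include hE1 hE2 in
lemma inequality : Module.length A M ≤
    Module.length A (Derivation k A M) + Module.length A (socle A M) := by
  rw [length_eq hE1 hE2, add_comm]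
  gcongr
  exact Module.length_le_of_injective (LinearMap.range (T E : M →ₗ[A] Derivation k A M)).subtype
    (Submodule.subtype_injective _)

include hE1 hE2 in
lemma equality_iff (hfin : Module.length A M ≠ ⊤) :
    Module.length A M = Module.length A (Derivation k A M) + Module.length A (socle A M) ↔
      ∀ D : Derivation k A M, ∃ m : M, ∀ a, D a = E a • m := by
  have hl := length_eq (M := M) hE1 hE2
  have h2 := Module.length_eq_add_of_exact
    (LinearMap.range (T E : M →ₗ[A] Derivation k A M)).subtype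
    (LinearMap.range (T E : M →ₗ[A] Derivation k A M)).mkQ (Submodule.subtype_injective _)
    (Submodule.mkQ_surjective _) (LinearMap.exact_subtype_mkQ _)
  set R := LinearMap.range (T E : M →ₗ[A] Derivation k A M) with hR
  constructor
  · intro h
    rw [h2, hl] at h
    have hs : Module.length A (socle A M) ≠ ⊤ := by
      intro ht; rw [hl, ht, top_add] at hfin; exact hfin rfl
    have hr : Module.length A R ≠ ⊤ := by
      intro ht; rw [hl, ht, add_top] at hfin; exact hfin rfl
    have h3 : Module.length A (Derivation k A M ⧸ R) = 0 := by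
      have h4 : Module.length A (socle A M) + Module.length A R + 0 =
          Module.length A (socle A M) + Module.length A R + Module.length A (Derivation k A M ⧸ R) := by
        rw [add_zero]
        conv_lhs => rw [h]
        ring
      exact (WithTop.add_left_cancel (WithTop.add_ne_top.2 ⟨hs, hr⟩) h4).symm
    rw [Module.length_eq_zero_iff] at h3
    rw [Submodule.Quotient.subsingleton_iff] at h3
    intro D
    have : D ∈ R := by rw [h3]; trivial
    obtain ⟨m, hm⟩ := this
    exact ⟨m, fun a => by rw [← hm, T_apply]⟩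
  · intro h
    have h3 : R = ⊤ := by
      rw [eq_top_iff]
      intro D _
      obtain ⟨m, hm⟩ := h D
      exact ⟨m, by ext a; rw [T_apply, hm]⟩
    rw [hl, h3, Module.length_top, add_comm]

end modules

section two

variable {k A M : Type*} [Field k] [CommRing A] [Algebra k A] [IsLocalRing A]
  [AddCommGroup M] [Module A M] [Module k M] [IsScalarTower k A M]

/-- every element is a constant plus an element of the maximal ideal -/
def Dec (k A : Type*) [Field k] [CommRing A] [Algebra k A] [IsLocalRing A] : Prop :=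
  ∀ b : A, ∃ (c : k) (b' : A), b' ∈ maximalIdeal A ∧ b = algebraMap k A c + b'

lemma exists_mkDer (hdec : Dec k A) (F : A →ₗ[k] M) (h1 : F 1 = 0)
    (h2 : ∀ a ∈ maximalIdeal A, ∀ b ∈ maximalIdeal A, F (a * b) = 0)
    (h3 : ∀ a ∈ maximalIdeal A, ∀ b ∈ maximalIdeal A, a • F b + b • F a = 0) :
    ∃ D : Derivation k A M, ∀ a, D a = F a := by
  have hc : ∀ c : k, F (algebraMap k A c) = 0 := by
    intro c
    rw [Algebra.algebraMap_eq_smul_one, map_smul, h1, smul_zero]
  refine ⟨Derivation.mk' F ?_, fun a => rfl⟩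
  intro a b
  obtain ⟨c, a', ha', rfl⟩ := hdec a
  obtain ⟨c', b', hb', rfl⟩ := hdec b
  have e1 : (algebraMap k A c + a') * (algebraMap k A c' + b') =
      algebraMap k A (c * c') + c • b' + c' • a' + a' * b' := by
    rw [map_mul, Algebra.smul_def, Algebra.smul_def]; ring
  rw [e1, map_add, map_add, map_add, hc, map_smul, map_smul, h2 a' ha' b' hb', map_add, map_add,
    hc, hc, zero_add, zero_add, zero_add, add_zero, add_smul, add_smul, algebraMap_smul,
    algebraMap_smul]
  have := h3 a' ha' b' hb'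
  calc c • F b' + c' • F a' = c • F b' + c' • F a' + 0 := by rw [add_zero]
    _ = _ := by rw [← this]; abel

lemma exists_nilp [IsArtinianRing A] : ∃ N : ℕ, maximalIdeal A ^ N = ⊥ := by
  obtain ⟨N, hN⟩ := IsArtinianRing.isNilpotent_jacobson_bot (R := A)
  rw [IsLocalRing.jacobson_eq_maximalIdeal ⊥ bot_ne_top] at hN
  exact ⟨N, hN⟩

lemma exists_socle [IsArtinianRing A] [Nontrivial M] : ∃ s ∈ socle A M, s ≠ 0 := by
  classical
  obtain ⟨N, hN⟩ := exists_nilp (A := A)
  have hex : ∃ j : ℕ, ∀ m : M, ∀ a ∈ maximalIdeal A ^ j, a • m = 0 := by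
    refine ⟨N, fun m a ha => ?_⟩
    rw [hN] at ha
    rw [(Submodule.mem_bot _).1 ha, zero_smul]
  have hspec := Nat.find_spec hex
  have hpos : Nat.find hex ≠ 0 := by
    intro h0
    rw [h0] at hspec
    obtain ⟨m, hm⟩ := exists_ne (0 : M)
    apply hm
    have := hspec m 1 (by simp)
    simpa using this
  have hmin := Nat.find_min hex (Nat.sub_lt (Nat.pos_of_ne_zero hpos) one_pos)
  push Not at hmin
  obtain ⟨m, a, ha, hne⟩ := hmin
  refine ⟨a • m, ?_, hne⟩
  intro b hb
  rw [smul_smul]
  apply hspec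
  have h1 : b * a ∈ maximalIdeal A * maximalIdeal A ^ (Nat.find hex - 1) := Ideal.mul_mem_mul hb ha
  rw [← pow_succ'] at h1
  have h2 : Nat.find hex - 1 + 1 = Nat.find hex := by omega
  rwa [h2] at h1

/-- `k·1 + 𝔪²` -/
noncomputable def W (k A : Type*) [Field k] [CommRing A] [Algebra k A] [IsLocalRing A] : Submodule k A :=
  Submodule.span k {1} ⊔ (maximalIdeal A ^ 2).restrictScalars k

variable {E : Derivation k A A} (hE1 : ∀ a, E a ∈ maximalIdeal A)
  (hE2 : ∀ b ∈ maximalIdeal A, ∃ a, E a = b)

lemma W_one : (1 : A) ∈ W k A := Submodule.mem_sup_left (Submodule.mem_span_singleton_self _)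

lemma W_mul {a b : A} (ha : a ∈ maximalIdeal A) (hb : b ∈ maximalIdeal A) : a * b ∈ W k A := by
  apply Submodule.mem_sup_right
  rw [Submodule.restrictScalars_mem, pow_two]
  exact Ideal.mul_mem_mul ha hb

include hE1 hE2 in
lemma exists_m_psi (hdec : Dec k A) (hsurj : ∀ D : Derivation k A M, ∃ m : M, ∀ a, D a = E a • m)
    (ψ : A →ₗ[k] k) (hψ : ∀ w ∈ W k A, ψ w = 0) {s : M} (hs : s ∈ socle A M) :
    ∃ m : M, ∀ b ∈ maximalIdeal A, b • m = ψ b • s := by
  obtain ⟨D, hD⟩ := exists_mkDer (M := M) hdec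
    ((LinearMap.toSpanSingleton k M s) ∘ₗ ψ ∘ₗ (E : A →ₗ[k] A))
    (by simp)
    (by
      intro a ha b hb
      simp only [LinearMap.comp_apply, Derivation.coeFn_coe, Derivation.leibniz, smul_eq_mul, map_add]
      rw [hψ _ (W_mul ha (hE1 b)), hψ _ (W_mul hb (hE1 a))]
      simp)
    (by
      intro a ha b hb
      simp only [LinearMap.comp_apply, LinearMap.toSpanSingleton_apply]
      rw [smul_comm a, smul_comm b, hs a ha, hs b hb]
      simp)
  obtain ⟨m, hm⟩ := hsurj D
  refine ⟨m, fun b hb => ?_⟩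
  obtain ⟨a, rfl⟩ := hE2 b hb
  rw [← hm, hD]
  simp

include hE1 hE2 in
lemma two_contra [CharZero k] (hdec : Dec k A) (hsurj : ∀ D : Derivation k A M, ∃ m : M, ∀ a, D a = E a • m)
    {s : M} (hs : s ∈ socle A M) (ψ ψ' : A →ₗ[k] k) (hψ : ∀ w ∈ W k A, ψ w = 0)
    (hψ' : ∀ w ∈ W k A, ψ' w = 0) {x y : A} {i j : ℕ} (hi : 0 < i) (hj : 0 < j)
    (hx : x ∈ maximalIdeal A) (hy : y ∈ maximalIdeal A)
    (hEx : E x = (i : k) • x) (hEy : E y = (j : k) • y)
    (h11 : ψ x = 1) (h12 : ψ y = 0) (h21 : ψ' x = 0) (h22 : ψ' y = 1) : s = 0 := by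
  obtain ⟨m1, hm1⟩ := exists_m_psi hE1 hE2 hdec hsurj ψ hψ hs
  obtain ⟨m2, hm2⟩ := exists_m_psi hE1 hE2 hdec hsurj ψ' hψ' hs
  obtain ⟨D, hD⟩ := exists_mkDer (M := M) hdec
    ((LinearMap.toSpanSingleton k M m2) ∘ₗ ψ - (LinearMap.toSpanSingleton k M m1) ∘ₗ ψ')
    (by
      simp only [LinearMap.sub_apply, LinearMap.comp_apply]
      rw [hψ _ W_one, hψ' _ W_one]; simp)
    (by
      intro a ha b hb
      simp only [LinearMap.sub_apply, LinearMap.comp_apply]
      rw [hψ _ (W_mul ha hb), hψ' _ (W_mul ha hb)]; simp)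
    (by
      intro a ha b hb
      simp only [LinearMap.sub_apply, LinearMap.comp_apply, LinearMap.toSpanSingleton_apply, smul_sub]
      rw [smul_comm a, smul_comm a, smul_comm b, smul_comm b, hm1 a ha, hm1 b hb, hm2 a ha, hm2 b hb]
      simp only [smul_smul]
      rw [mul_comm (ψ b), mul_comm (ψ' b)]
      abel)
  obtain ⟨m, hm⟩ := hsurj D
  have e1 : (m2 : M) = (i : k) • (x • m) := by
    have := hm x
    rw [hD, hEx] at this
    simp only [LinearMap.sub_apply, LinearMap.comp_apply, LinearMap.toSpanSingleton_apply, h11, h21,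
      one_smul, zero_smul, sub_zero, smul_assoc] at this
    exact this
  have e2 : -(m1 : M) = (j : k) • (y • m) := by
    have := hm y
    rw [hD, hEy] at this
    simp only [LinearMap.sub_apply, LinearMap.comp_apply, LinearMap.toSpanSingleton_apply, h12, h22,
      one_smul, zero_smul, zero_sub, smul_assoc] at this
    exact this
  have e3 : s = (i : k) • ((x * y) • m) := by
    have h1 := hm2 y hy
    rw [h22, one_smul, e1, smul_comm y, smul_smul, mul_comm y x] at h1
    exact h1.symm
  have e4 : -s = (j : k) • ((x * y) • m) := by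
    have h1 := hm1 x hx
    rw [h11, one_smul] at h1
    rw [← h1, ← smul_neg, e2, smul_comm x, smul_smul]
  have e5 : ((i : k) + j) • s = 0 := by
    have h1 : (j : k) • s = (i : k) • (-s) := by
      rw [e4, smul_smul]
      conv_lhs => rw [e3, smul_smul]
      rw [mul_comm]
    rw [add_smul, h1, smul_neg, add_neg_cancel]
  have h6 : ((i : k) + j) ≠ 0 := by
    have : ((i + j : ℕ) : k) ≠ 0 := by exact_mod_cast (by omega : i + j ≠ 0)
    rwa [Nat.cast_add] at this
  exact (smul_eq_zero.1 e5).resolve_left h6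

lemma exists_functional {p : Submodule k A} {x : A} (hx : x ∉ p) :
    ∃ f : A →ₗ[k] k, f x = 1 ∧ ∀ w ∈ p, f w = 0 := by
  obtain ⟨f, hf, hp⟩ := Submodule.exists_dual_map_eq_bot_of_notMem hx inferInstance
  refine ⟨(f x)⁻¹ • f, ?_, ?_⟩
  · simp [hf]
  · intro w hw
    have : f w ∈ p.map f := Submodule.mem_map_of_mem hw
    rw [hp, Submodule.mem_bot] at this
    simp [this]

lemma principal_of_W (hdec : Dec k A) [IsNoetherianRing A] {x : A} (hx : x ∈ maximalIdeal A)
    (h : W k A ⊔ Submodule.span k {x} = ⊤) : maximalIdeal A = Ideal.span {x} := by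
  apply le_antisymm
  · apply Submodule.le_of_le_smul_of_le_jacobson_bot (I := maximalIdeal A)
      (IsNoetherian.noetherian _) (IsLocalRing.maximalIdeal_le_jacobson _)
    intro a ha
    have ha' : a ∈ W k A ⊔ Submodule.span k {x} := by rw [h]; trivial
    obtain ⟨w, hw, z, hz, rfl⟩ := Submodule.mem_sup.1 ha'
    obtain ⟨c, rfl⟩ := Submodule.mem_span_singleton.1 hz
    obtain ⟨u, hu, v, hv, rfl⟩ := Submodule.mem_sup.1 hw
    obtain ⟨d, rfl⟩ := Submodule.mem_span_singleton.1 hu
    rw [Submodule.restrictScalars_mem] at hv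
    have hv1 : v ∈ maximalIdeal A := Ideal.pow_le_self (by norm_num) hv
    have hcx : c • x ∈ maximalIdeal A := by
      rw [Algebra.smul_def]; exact Ideal.mul_mem_left _ _ hx
    have hd : algebraMap k A d ∈ maximalIdeal A := by
      have h1 := Ideal.sub_mem _ (Ideal.sub_mem _ ha hcx) hv1
      rw [Algebra.algebraMap_eq_smul_one]
      convert h1 using 1
      abel
    have hd0 := const_not_mem hd
    rw [hd0, zero_smul, zero_add]
    apply Submodule.add_mem
    · apply Submodule.mem_sup_right
      rw [smul_eq_mul, ← pow_two]; exact hv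
    · apply Submodule.mem_sup_left
      rw [Algebra.smul_def]
      exact Ideal.mul_mem_left _ _ (Ideal.mem_span_singleton_self x)
  · rw [Ideal.span_le, Set.singleton_subset_iff]; exact hx

end two

section dichotomy

variable {k A : Type*} [Field k] [CommRing A] [Algebra k A] [IsLocalRing A]
variable (𝒜 : ℕ → Submodule k A) [GradedAlgebra 𝒜] (h0 : 𝒜 0 = 1)

include h0 in
lemma homog_notin {V : Submodule k A} (hV : V ≠ ⊤) (h1 : (1 : A) ∈ V) :
    ∃ i : ℕ, 0 < i ∧ ∃ x ∈ 𝒜 i, x ∉ V := by
  by_contra hcon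
  push Not at hcon
  apply hV
  have key : ∀ a : A, a ∈ V := ?_
  · rw [eq_top_iff]; intro a _; exact key a
  intro a
  induction a using DirectSum.Decomposition.inductionOn 𝒜 with
  | zero => exact zero_mem _
  | add a a' ha ha' => exact add_mem ha ha'
  | homogeneous a =>
    rename_i i
    rcases Nat.eq_zero_or_pos i with h | h
    · subst h
      have h2 : ∀ z : A, z ∈ 𝒜 0 → z ∈ V := by
        intro z hz
        rw [h0, Submodule.mem_one] at hz
        obtain ⟨c, hc⟩ := hz
        rw [← hc, Algebra.algebraMap_eq_smul_one]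
        exact Submodule.smul_mem _ _ h1
      exact h2 _ a.2
    · exact hcon i h a a.2

include h0 in
lemma principal_of_surj [CharZero k] [Module.Finite k A] {M : Type*} [AddCommGroup M] [Module A M]
    [Module k M] [IsScalarTower k A M] [Nontrivial M]
    (hsurj : ∀ D : Derivation k A M, ∃ m : M, ∀ a, D a = euler 𝒜 a • m) :
    ∃ x ∈ maximalIdeal A, maximalIdeal A = Ideal.span {x} := by
  have : IsArtinianRing A := IsArtinianRing.of_finite k A
  have hdec : Dec k A := decomp 𝒜 h0
  have hE1 := euler_mem 𝒜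
  have hE2 : ∀ b ∈ maximalIdeal A, ∃ a, euler 𝒜 a = b := fun b hb => euler_surj 𝒜 h0 hb
  by_cases hW : W k A = ⊤
  · refine ⟨0, zero_mem _, principal_of_W hdec (zero_mem _) ?_⟩
    rw [hW, top_sup_eq]
  · obtain ⟨i, hi, x, hx, hxW⟩ := homog_notin 𝒜 h0 hW W_one
    have hxm := pos_mem 𝒜 hi hx
    by_cases hWx : W k A ⊔ Submodule.span k {x} = ⊤
    · exact ⟨x, hxm, principal_of_W hdec hxm hWx⟩
    · exfalso
      obtain ⟨j, hj, y, hy, hyW⟩ := homog_notin 𝒜 h0 hWx (Submodule.mem_sup_left W_one)
      have hym := pos_mem 𝒜 hj hy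
      have hxy : x ∉ W k A ⊔ Submodule.span k {y} := by
        intro h
        obtain ⟨w, hw, z, hz, hwz⟩ := Submodule.mem_sup.1 h
        obtain ⟨c, rfl⟩ := Submodule.mem_span_singleton.1 hz
        by_cases hc : c = 0
        · rw [hc, zero_smul, add_zero] at hwz
          rw [hwz] at hw
          exact hxW hw
        · apply hyW
          have h1 : y = c⁻¹ • (-w) + c⁻¹ • x := by
            rw [← hwz, smul_add, smul_smul, inv_mul_cancel₀ hc, one_smul, smul_neg]; abel
          rw [h1]
          apply add_mem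
          · exact Submodule.mem_sup_left (Submodule.smul_mem _ _ (Submodule.neg_mem _ hw))
          · exact Submodule.mem_sup_right (Submodule.smul_mem _ _ (Submodule.mem_span_singleton_self x))
      obtain ⟨ψ, hψx, hψ⟩ := exists_functional hxy
      obtain ⟨ψ', hψy, hψ'⟩ := exists_functional hyW
      obtain ⟨s, hs, hs0⟩ := exists_socle (A := A) (M := M)
      apply hs0
      exact two_contra hE1 hE2 hdec hsurj hs ψ ψ' (fun w hw => hψ w (Submodule.mem_sup_left hw))
        (fun w hw => hψ' w (Submodule.mem_sup_left hw)) hi hj hxm hym (euler_of_mem 𝒜 hx)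
        (euler_of_mem 𝒜 hy) hψx
        (hψ y (Submodule.mem_sup_right (Submodule.mem_span_singleton_self y)))
        (hψ' x (Submodule.mem_sup_right (Submodule.mem_span_singleton_self x))) hψy

end dichotomy

section principal

open Polynomial

variable {k A : Type*} [Field k] [CommRing A] [Algebra k A] [IsLocalRing A]

lemma aeval_surj [IsArtinianRing A] (hdec : Dec k A) {x : A} (hx : maximalIdeal A = Ideal.span {x}) :
    Function.Surjective (aeval x : k[X] →ₐ[k] A) := by
  obtain ⟨N, hN⟩ := exists_nilp (A := A)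
  have key : ∀ j : ℕ, ∀ a : A, ∃ p : k[X], a - aeval x p ∈ maximalIdeal A ^ j := by
    intro j
    induction j with
    | zero => intro a; exact ⟨0, by simp⟩
    | succ j ih =>
      intro a
      obtain ⟨c, b, hb, rfl⟩ := hdec a
      rw [hx, Ideal.mem_span_singleton'] at hb
      obtain ⟨d, rfl⟩ := hb
      obtain ⟨p, hp⟩ := ih d
      refine ⟨C c + p * X, ?_⟩
      rw [map_add, map_mul, aeval_C, aeval_X]
      have h1 : algebraMap k A c + d * x - (algebraMap k A c + aeval x p * x) = (d - aeval x p) * x := by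
        ring
      rw [h1, pow_succ]
      exact Ideal.mul_mem_mul hp (by rw [hx]; exact Ideal.mem_span_singleton_self x)
  intro a
  obtain ⟨p, hp⟩ := key N a
  rw [hN, Submodule.mem_bot, sub_eq_zero] at hp
  exact ⟨p, hp.symm⟩

lemma exists_index [IsArtinianRing A] {x : A} (hx : x ∈ maximalIdeal A) :
    ∃ n : ℕ, 1 ≤ n ∧ x ^ n = 0 ∧ x ^ (n-1) ≠ 0 := by
  classical
  obtain ⟨N, hN⟩ := exists_nilp (A := A)
  have hex : ∃ n : ℕ, x ^ n = 0 := by
    refine ⟨N, ?_⟩
    have := Ideal.pow_mem_pow hx N
    rwa [hN, Submodule.mem_bot] at this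
  have h1 := Nat.find_spec hex
  have h2 : Nat.find hex ≠ 0 := by
    intro h
    rw [h, pow_zero] at h1
    exact one_ne_zero h1
  exact ⟨Nat.find hex, Nat.one_le_iff_ne_zero.2 h2, h1,
    Nat.find_min hex (Nat.sub_lt (Nat.pos_of_ne_zero h2) one_pos)⟩

lemma ker_aeval {x : A} {n : ℕ} (hn : 1 ≤ n) (h1 : x ^ n = 0) (h2 : x ^ (n-1) ≠ 0) :
    RingHom.ker (aeval x : k[X] →ₐ[k] A) = Ideal.span {X ^ n} := by
  obtain ⟨g, hg⟩ := IsPrincipalIdealRing.principal (RingHom.ker (aeval x : k[X] →ₐ[k] A))
  have hg' : RingHom.ker (aeval x : k[X] →ₐ[k] A) = Ideal.span {g} := hg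
  have h3 : (X ^ n : k[X]) ∈ RingHom.ker (aeval x : k[X] →ₐ[k] A) := by
    rw [RingHom.mem_ker, map_pow, aeval_X, h1]
  rw [hg', Ideal.mem_span_singleton] at h3
  obtain ⟨j, hj, hass⟩ := (dvd_prime_pow (prime_X (R := k)) n).1 h3
  have h4 : RingHom.ker (aeval x : k[X] →ₐ[k] A) = Ideal.span {X ^ j} := by
    rw [hg', Ideal.span_singleton_eq_span_singleton]; exact hass
  have h5 : x ^ j = 0 := by
    have : (X ^ j : k[X]) ∈ RingHom.ker (aeval x : k[X] →ₐ[k] A) := by
      rw [h4]; exact Ideal.mem_span_singleton_self _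
    rw [RingHom.mem_ker, map_pow, aeval_X] at this
    exact this
  have h6 : j = n := by
    by_contra hne
    have : j ≤ n - 1 := by omega
    exact h2 (pow_eq_zero_of_le this h5)
  rw [h4, h6]

lemma iso_of_principal [IsArtinianRing A] (hdec : Dec k A) {x : A} (hx : maximalIdeal A = Ideal.span {x})
    {n : ℕ} (hn : 1 ≤ n) (h1 : x ^ n = 0) (h2 : x ^ (n-1) ≠ 0) :
    Nonempty (A ≃ₐ[k] (k[X] ⧸ Ideal.span {(X : k[X]) ^ n})) :=
  ⟨((Ideal.quotientKerAlgEquivOfSurjective (aeval_surj hdec hx)).symm).trans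
    (Ideal.quotientEquivAlgOfEq k (ker_aeval hn h1 h2))⟩

variable {M : Type*} [AddCommGroup M] [Module A M] [Module k M] [IsScalarTower k A M]

lemma exists_der [IsArtinianRing A] (hdec : Dec k A) {x : A} (hx : maximalIdeal A = Ideal.span {x})
    {n : ℕ} (hn : 1 ≤ n) (h1 : x ^ n = 0) (h2 : x ^ (n-1) ≠ 0) {m' : M} (hm' : x ^ (n-1) • m' = 0) :
    ∃ D : Derivation k A M, D x = m' := by
  have hsurj := aeval_surj hdec hx
  have hker := ker_aeval (k := k) hn h1 h2
  have hwd : ∀ p : k[X], aeval x p = 0 → aeval x (derivative p) • m' = 0 := by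
    intro p hp
    have h3 : p ∈ RingHom.ker (aeval x : k[X] →ₐ[k] A) := hp
    rw [hker, Ideal.mem_span_singleton] at h3
    obtain ⟨q, rfl⟩ := h3
    rw [derivative_mul, derivative_X_pow, map_add, map_mul, map_mul, map_mul, map_pow, aeval_X, map_pow,
      aeval_X, h1, zero_mul, add_zero]
    rw [mul_comm (aeval x (C (n:k))), mul_assoc, mul_comm, mul_smul, hm', smul_zero]
  have hwd2 : ∀ p q : k[X], aeval x p = aeval x q →
      aeval x (derivative p) • m' = aeval x (derivative q) • m' := by
    intro p q h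
    have := hwd (p - q) (by rw [map_sub, h, sub_self])
    rw [derivative_sub, map_sub, sub_smul, sub_eq_zero] at this
    exact this
  choose g hg using hsurj
  let F : A →ₗ[k] M :=
    { toFun := fun a => aeval x (derivative (g a)) • m'
      map_add' := by
        intro a b
        rw [← add_smul, ← map_add, ← derivative_add]
        apply hwd2
        rw [hg, map_add, hg, hg]
      map_smul' := by
        intro c a
        rw [RingHom.id_apply, ← algebraMap_smul A c (aeval x (derivative (g a)) • m'), smul_smul]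
        have : algebraMap k A c * aeval x (derivative (g a)) = aeval x (derivative (C c * g a)) := by
          rw [derivative_C_mul, map_mul, aeval_C]
        rw [this]
        apply hwd2
        rw [hg, map_mul, aeval_C, hg, Algebra.smul_def] }
  refine ⟨Derivation.mk' F ?_, ?_⟩
  · intro a b
    change aeval x (derivative (g (a * b))) • m' = a • (aeval x (derivative (g b)) • m') +
      b • (aeval x (derivative (g a)) • m')
    rw [hwd2 (g (a*b)) (g a * g b) (by rw [hg, map_mul, hg, hg]), derivative_mul, map_add, map_mul,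
      map_mul, hg, hg, smul_smul, smul_smul, ← add_smul]
    congr 1; ring
  · change aeval x (derivative (g x)) • m' = m'
    rw [hwd2 (g x) X (by rw [hg, aeval_X]), derivative_X, map_one, one_smul]

end principal

section free

open Polynomial TensorProduct

variable {k A : Type*} [Field k] [CommRing A] [Algebra k A] [IsLocalRing A]
variable {M : Type*} [AddCommGroup M] [Module A M] [Module k M] [IsScalarTower k A M]

lemma free_of_ann [IsArtinianRing A] [Module.Finite A M] {x : A} (hx : maximalIdeal A = Ideal.span {x})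
    {n : ℕ} (h1 : x ^ n = 0) (hn : 1 ≤ n)
    (hann : ∀ m : M, x ^ (n-1) • m = 0 → ∃ m', m = x • m') : Module.Free A M := by
  have : Module.FinitePresentation A M := Module.finitePresentation_of_finite A M
  apply Module.free_of_maximalIdeal_rTensor_injective
  have hxm : x ∈ maximalIdeal A := by rw [hx]; exact Ideal.mem_span_singleton_self x
  -- every tensor is pure
  have hpure : ∀ t : (maximalIdeal A) ⊗[A] M, ∃ m : M, t = (⟨x, hxm⟩ : maximalIdeal A) ⊗ₜ[A] m := by
    intro t
    induction t using TensorProduct.induction_on with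
    | zero => exact ⟨0, by rw [tmul_zero]⟩
    | tmul a m =>
      obtain ⟨a, ha⟩ := a
      have ha' := ha
      rw [hx, Ideal.mem_span_singleton'] at ha'
      obtain ⟨d, rfl⟩ := ha'
      refine ⟨d • m, ?_⟩
      rw [tmul_smul, smul_tmul']
      rfl
    | add t t' ht ht' =>
      obtain ⟨m, rfl⟩ := ht
      obtain ⟨m', rfl⟩ := ht'
      exact ⟨m + m', by rw [tmul_add]⟩
  rw [injective_iff_map_eq_zero]
  intro t ht
  obtain ⟨m, rfl⟩ := hpure t
  rw [LinearMap.rTensor_tmul, Submodule.subtype_apply] at ht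
  have hxm0 : x • m = 0 := by
    have := congrArg (TensorProduct.lid A M) ht
    simpa using this
  have key : ∀ j : ℕ, j ≤ n - 1 → ∃ m', m = x ^ j • m' := by
    intro j
    induction j with
    | zero => intro _; exact ⟨m, by simp⟩
    | succ j ih =>
      intro hj
      obtain ⟨m', hm'⟩ := ih (by omega)
      have h3 : x ^ (j+1) • m' = 0 := by
        rw [pow_succ', mul_smul, ← hm', hxm0]
      have h4 : x ^ (n-1) • m' = 0 := by
        obtain ⟨r, hr⟩ := Nat.exists_eq_add_of_le hj
        rw [hr, add_comm, pow_add, mul_smul, h3, smul_zero]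
      obtain ⟨m'', rfl⟩ := hann m' h4
      exact ⟨m'', by rw [hm', smul_smul, ← pow_succ]⟩
  obtain ⟨m', hm'⟩ := key (n-1) le_rfl
  rw [hm', tmul_smul, smul_tmul']
  have : x ^ (n-1) • (⟨x, hxm⟩ : maximalIdeal A) = 0 := by
    apply Subtype.ext
    change x ^ (n-1) * x = 0
    rw [← pow_succ, Nat.sub_add_cancel hn, h1]
  rw [this, zero_tmul]

variable {E : Derivation k A A} (hE1 : ∀ a, E a ∈ maximalIdeal A)
  (hE2 : ∀ b ∈ maximalIdeal A, ∃ a, E a = b)

include hE1 in
lemma free_of_surj [IsArtinianRing A] [Module.Finite A M] (hdec : Dec k A) {x : A} (hx : maximalIdeal A = Ideal.span {x})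
    {n : ℕ} (hn : 1 ≤ n) (h1 : x ^ n = 0) (h2 : x ^ (n-1) ≠ 0)
    (hsurj : ∀ D : Derivation k A M, ∃ m : M, ∀ a, D a = E a • m) : Module.Free A M := by
  apply free_of_ann hx h1 hn
  intro m' hm'
  obtain ⟨D, hD⟩ := exists_der hdec hx hn h1 h2 hm'
  obtain ⟨m, hm⟩ := hsurj D
  have h3 := hE1 x
  rw [hx, Ideal.mem_span_singleton'] at h3
  obtain ⟨t, ht⟩ := h3
  refine ⟨t • m, ?_⟩
  rw [← hD, hm, ← ht, smul_smul, mul_comm]

include hE1 hE2 in
lemma surj_of_free [CharZero k] [IsArtinianRing A] [Module.Free A M] {x : A} (hxm : x ∈ maximalIdeal A)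
    (hs : Function.Surjective (aeval x : k[X] →ₐ[k] A)) :
    ∀ D : Derivation k A M, ∃ m : M, ∀ a, D a = E a • m := by
  intro D
  have hx : ∀ a ∈ maximalIdeal A, ∃ d, a = x * d := by
    intro a ha
    obtain ⟨p, rfl⟩ := hs a
    have h1 : p = C (p.coeff 0) + X * divX p := by
      conv_lhs => rw [← divX_mul_X_add p]
      ring
    have h2 : aeval x p = algebraMap k A (p.coeff 0) + x * aeval x (divX p) := by
      conv_lhs => rw [h1]
      rw [map_add, map_mul, aeval_C, aeval_X]
    have h3 : algebraMap k A (p.coeff 0) ∈ maximalIdeal A := by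
      have := Ideal.sub_mem _ ha (Ideal.mul_mem_right (aeval x (divX p)) _ hxm)
      rw [h2] at this
      simpa using this
    have h4 := const_not_mem h3
    rw [h4, map_zero, zero_add] at h2
    exact ⟨_, h2⟩
  obtain ⟨n, hn, h1, h2⟩ := exists_index hxm
  -- `x^(n-1) D x = 0`
  have h3 : x ^ (n-1) • D x = 0 := by
    have h4 : D (x ^ n) = 0 := by rw [h1, Derivation.map_zero]
    rw [Derivation.leibniz_pow, ← Nat.cast_smul_eq_nsmul k] at h4
    exact (smul_eq_zero.1 h4).resolve_left (by exact_mod_cast (by omega : n ≠ 0))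
  have h5 : ∃ m'', D x = x • m'' := by
    set b := Module.Free.chooseBasis A M
    have h6 : ∀ j, ∃ d, b.repr (D x) j = x * d := by
      intro j
      apply hx
      rw [mem_maximalIdeal, mem_nonunits_iff]
      intro hu
      apply h2
      have h7 : x ^ (n-1) * b.repr (D x) j = 0 := by
        have := congrArg (fun z => b.repr z j) h3
        simpa using this
      exact (hu.mul_left_eq_zero).1 h7
    have h8 : D x ∈ LinearMap.range (LinearMap.lsmul A M x) := by
      rw [← b.linearCombination_repr (D x), Finsupp.linearCombination_apply]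
      apply Submodule.sum_mem
      intro j _
      obtain ⟨d, hd⟩ := h6 j
      exact ⟨d • b j, by rw [hd, LinearMap.lsmul_apply, smul_smul]⟩
    obtain ⟨m'', hm''⟩ := h8
    exact ⟨m'', hm''.symm⟩
  obtain ⟨m'', hm''⟩ := h5
  have h9 : ∃ m, D x = E x • m := by
    by_cases hx0 : x = 0
    · exact ⟨0, by rw [hx0, Derivation.map_zero, smul_zero]⟩
    · obtain ⟨v, hv⟩ := hx _ (hE1 x)
      obtain ⟨a, ha⟩ := hE2 x hxm
      obtain ⟨p, rfl⟩ := hs a
      rw [Derivation.map_aeval, hv, smul_eq_mul] at ha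
      have hvu : IsUnit v := by
        by_contra hvn
        have hvm : v ∈ maximalIdeal A := hvn
        apply hx0
        have h10 : (1 - aeval x (derivative p) * v) * x = 0 := by
          rw [sub_mul, one_mul]
          nth_rewrite 1 [← ha]
          ring
        have h11 : IsUnit (1 - aeval x (derivative p) * v) := by
          by_contra hun
          have h12 : (1 - aeval x (derivative p) * v) ∈ maximalIdeal A := hun
          have h13 := Ideal.add_mem _ h12 (Ideal.mul_mem_left _ (aeval x (derivative p)) hvm)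
          rw [sub_add_cancel] at h13
          exact (Ideal.ne_top_iff_one _).1 (IsLocalRing.maximalIdeal.isMaximal A).ne_top h13
        exact (h11.mul_right_eq_zero).1 h10
      obtain ⟨u, rfl⟩ := hvu
      refine ⟨(↑u⁻¹ : A) • m'', ?_⟩
      rw [hv, smul_smul, mul_assoc, Units.mul_inv, mul_one, hm'']
  obtain ⟨m, hm⟩ := h9
  refine ⟨m, ?_⟩
  have h14 : D = T E m := by
    apply Derivation.ext_of_adjoin_eq_top {x}
    · rw [Algebra.adjoin_singleton_eq_range_aeval, AlgHom.range_eq_top]
      exact hs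
    · intro y hy
      rw [Set.mem_singleton_iff] at hy
      rw [hy, T_apply, hm]
  intro a
  rw [h14, T_apply]

end free

open Polynomial in
/-- Q1 for all positively graded `A` -/
theorem result (k A : Type*) [Field k] [CharZero k] [CommRing A] [Algebra k A] [Module.Finite k A]
    [IsLocalRing A] (𝒜 : ℕ → Submodule k A) [GradedAlgebra 𝒜] (h0 : 𝒜 0 = 1)
    (M : Type*) [AddCommGroup M] [Module A M] [Module k M] [IsScalarTower k A M] [Module.Finite A M] :
    Module.length A M ≠ ⊤ ∧
    Module.length A M ≤ Module.length A (Derivation k A M) + Module.length A (socle A M) ∧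
    (Nontrivial M →
      (Module.length A M = Module.length A (Derivation k A M) + Module.length A (socle A M) ↔
        (∃ n : ℕ, 1 ≤ n ∧ Nonempty (A ≃ₐ[k] (k[X] ⧸ Ideal.span {(X : k[X]) ^ n}))) ∧
          Module.Free A M)) := by
  have : IsArtinianRing A := IsArtinianRing.of_finite k A
  have hE1 := euler_mem 𝒜
  have hE2 : ∀ b ∈ maximalIdeal A, ∃ a, euler 𝒜 a = b := fun b hb => euler_surj 𝒜 h0 hb
  have hdec : Dec k A := decomp 𝒜 h0
  have hfin : Module.length A M ≠ ⊤ := Module.length_ne_top
  refine ⟨hfin, inequality hE1 hE2, fun hM => ?_⟩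
  rw [equality_iff hE1 hE2 hfin]
  constructor
  · intro hsurj
    obtain ⟨x, hxm, hx⟩ := principal_of_surj 𝒜 h0 hsurj
    obtain ⟨n, hn, h1, h2⟩ := exists_index hxm
    exact ⟨⟨n, hn, iso_of_principal hdec hx hn h1 h2⟩, free_of_surj hE1 hdec hx hn h1 h2 hsurj⟩
  · rintro ⟨⟨n, hn, ⟨e⟩⟩, hfree⟩
    set x : A := e.symm (Ideal.Quotient.mk _ X) with hx
    have hxn : x ^ n = 0 := by
      rw [hx, ← map_pow, ← map_pow, Ideal.Quotient.eq_zero_iff_mem.2 (Ideal.mem_span_singleton_self _),
        map_zero]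
    have hxm : x ∈ maximalIdeal A := by
      rw [mem_maximalIdeal, mem_nonunits_iff]
      intro hu
      have := hu.pow n
      rw [hxn] at this
      exact not_isUnit_zero this
    have hs : Function.Surjective (aeval x : k[X] →ₐ[k] A) := by
      intro a
      obtain ⟨p, hp⟩ := Ideal.Quotient.mk_surjective (e a)
      refine ⟨p, ?_⟩
      have h1 : aeval x p = e.symm (Ideal.Quotient.mk _ p) := by
        have h2 : (aeval x : k[X] →ₐ[k] A) =
            (e.symm : (k[X] ⧸ Ideal.span {(X : k[X]) ^ n}) →ₐ[k] A).comp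
              (Ideal.Quotient.mkₐ k (Ideal.span {(X : k[X]) ^ n})) := by
          ext
          simp [hx]
        rw [h2]; rfl
      rw [h1, hp, e.symm_apply_apply]
    exact surj_of_free hE1 hE2 hxm hs

end Pool.Agent.Results.MP_72b677_al.Graded
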